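import Pool.Agent.Q84.NX.Win
import Pool.Agent.Results.MP_7aad9f_nt.MultiplesThreeHalves

/-!
# The least radical of an abc triple divisible by the primes of a string, or by numbers near their multiples

Let `0 < ε ≤ 1` and `M(n) = max (n ^ (3/2), n P(n))`, where `P(n)` is the largest prime factor of `n`. For all `κ > 0` and
`m` there is `c' > 0` and for every `Z` a number `D` with the following property. For every large `X` there is a set `S` of at
most `(log X) ^ (49 / 50)` primes, all larger than `Z`, such that for EVERY function `f` with values `1` and `-1` on the primes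
at least `X ^ (1 - κ)` integers `n`, `X < n ≤ 3X`, satisfy: the interval `[n, n + D]` contains at least `m` primes, and for
every prime `p` in it

* the Legendre symbol `(p / q)` is `f q` for all odd primes `q ≤ c' log X` outside `S`;
* for ALL integers `n` with `|n - k p| ≤ p ^ (ε / 40)` for some integer `k`, `1 ≤ k ≤ p ^ (ε / 40)` (for instance `n = p`), EVERY
  abc-triple of whatever height with `n ∣ a b c` satisfies `rad (a b c) > M(n) n ^ (-ε)`, and for some of them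
  `rad (a b c) ≤ M(n) n ^ ε`.

For `n = p` we have `M(p) = p ^ 2`: every abc-triple with `p ∣ a b c` has `rad (a b c) > p ^ (2 - ε)`, so `T(a, b, c) < 0` if
`c ≤ p ^ (2 - ε)`.

Method: the starting result `MultiplesThreeHalves` (of the row `MP_7aad9f_nt`) says that few integers `n` are exceptional; few
primes have an exceptional number near a small multiple (`Q84/NX/Win`); the Maynard-Tao theorem relative to a modulus which is a
small power of `X`, in the form that it avoids arbitrary exceptional sets of size `X ^ (1 - η)` (`Q84/MB/E1-E4`), gives the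
strings.
-/

set_option autoImplicit false

open scoped Classical

namespace Pool.Agent.Results.MP_4ab349_nt.StringsOfPrimes

open Finset Filter

/-- the product of the primes dividing `n` -/
def radical (n : ℕ) : ℕ := ∏ q ∈ n.primeFactors, q

/-- the largest prime factor of `n` -/
def largestPrime (n : ℕ) : ℕ := n.primeFactors.sup id

/-- the larger of `n ^ (3/2)` and `n P(n)` -/
noncomputable def M (n : ℕ) : ℝ := max ((n : ℝ) ^ (3 / 2 : ℝ)) ((n : ℝ) * largestPrime n)

/-- for all `n` within `p ^ (ε / 40)` of a multiple `k p`, `1 ≤ k ≤ p ^ (ε / 40)`, every abc-triple with `n ∣ a b (a + b)` has a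
radical larger than `M(n) n ^ (-ε)`, and one of them has a radical at most `M(n) n ^ ε` -/
def Fine (ε : ℝ) (p : ℕ) : Prop :=
  ∀ k n : ℕ, 1 ≤ k → (k : ℝ) ≤ (p : ℝ) ^ (ε / 40) → |(n : ℝ) - k * p| ≤ (p : ℝ) ^ (ε / 40) →
    (∀ a b : ℕ, 0 < a → 0 < b → Nat.Coprime a b → n ∣ a * b * (a + b) →
      M n * (n : ℝ) ^ (-ε) < (radical (a * b * (a + b)) : ℝ)) ∧
    ∃ a b : ℕ, 0 < a ∧ 0 < b ∧ Nat.Coprime a b ∧ n ∣ a * b * (a + b) ∧
      (radical (a * b * (a + b)) : ℝ) ≤ M n * (n : ℝ) ^ ε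

/-- **Theorem.** -/
theorem result (ε : ℝ) (hε : 0 < ε) (hε1 : ε ≤ 1) :
    ∀ κ : ℝ, 0 < κ → ∀ m : ℕ, ∃ c' : ℝ, 0 < c' ∧
    ∀ Z : ℕ, ∃ D : ℕ, ∃ X₀ : ℝ, ∀ X : ℝ, X₀ ≤ X →
    ∃ S : Finset ℕ, (∀ q ∈ S, q.Prime ∧ Z < q) ∧ (S.card : ℝ) ≤ (Real.log X) ^ (49 / 50 : ℝ) ∧
    ∀ f : ℕ → ℤ, (∀ q, f q = 1 ∨ f q = -1) →
      X ^ (1 - κ) ≤ (((Icc 1 ⌊3 * X⌋₊).filter fun n : ℕ => X < n ∧
        m ≤ ((Icc n (n + D)).filter Nat.Prime).card ∧
        ∀ p ∈ Icc n (n + D), p.Prime → Fine ε p ∧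
          ∀ q : ℕ, q.Prime → q ≠ 2 → (q : ℝ) ≤ c' * Real.log X → q ∉ S → jacobiSym p q = f q).card : ℝ) := by
  obtain ⟨C, hC⟩ := Pool.Agent.Results.MP_7aad9f_nt.MultiplesThreeHalves.result.1 ε hε hε1
  obtain ⟨R, hR⟩ : ∃ R : ℕ → Prop, R = fun n : ℕ => 1 ≤ n ∧
      ¬ Pool.Agent.Results.MP_7aad9f_nt.MultiplesThreeHalves.Regular ε n := ⟨_, rfl⟩
  have hcount : ∀ Y : ℕ, (((range (Y + 1)).filter R).card : ℝ) ≤ |C| * ((Y : ℝ) + 1) ^ (1 - ε / 5) := by
    intro Y
    have hY0 : (0 : ℝ) ≤ (Y : ℝ) := Nat.cast_nonneg Y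
    rcases Nat.eq_zero_or_pos Y with hY | hY
    · have h1 : (range (Y + 1)).filter R = ∅ := by
        apply filter_eq_empty_iff.2
        intro t ht h
        rw [mem_range] at ht
        rw [hR] at h
        have := h.1
        omega
      rw [h1, card_empty, Nat.cast_zero]
      positivity
    · have h1 := hC Y hY
      have hfin : {n : ℕ | 1 ≤ n ∧ n ≤ Y ∧
          ¬ Pool.Agent.Results.MP_7aad9f_nt.MultiplesThreeHalves.Regular ε n}.Finite :=
        (Set.finite_Iic Y).subset fun n hn => hn.2.1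
      have h2 : ((range (Y + 1)).filter R).card ≤ {n : ℕ | 1 ≤ n ∧ n ≤ Y ∧
          ¬ Pool.Agent.Results.MP_7aad9f_nt.MultiplesThreeHalves.Regular ε n}.ncard := by
        rw [← Set.ncard_coe_finset]
        apply Set.ncard_le_ncard _ hfin
        intro n hn
        rw [mem_coe, mem_filter, mem_range, hR] at hn
        exact ⟨hn.2.1, by omega, hn.2.2⟩
      have h3 : (((range (Y + 1)).filter R).card : ℝ) ≤ ({n : ℕ | 1 ≤ n ∧ n ≤ Y ∧
          ¬ Pool.Agent.Results.MP_7aad9f_nt.MultiplesThreeHalves.Regular ε n}.ncard : ℝ) := by exact_mod_cast h2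
      refine h3.trans (h1.trans ?_)
      calc C * (Y : ℝ) ^ (1 - ε / 5) ≤ |C| * (Y : ℝ) ^ (1 - ε / 5) :=
            mul_le_mul_of_nonneg_right (le_abs_self C) (by positivity)
        _ ≤ |C| * ((Y : ℝ) + 1) ^ (1 - ε / 5) := by
            apply mul_le_mul_of_nonneg_left _ (abs_nonneg C)
            exact Real.rpow_le_rpow hY0 (by linarith) (by linarith)
  have hbad := Pool.Agent.Q84.NX.win_bad R |C| (ε / 5) (by positivity) (by linarith) hcount (ε / 40) (by positivity)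
    (by linarith)
  intro κ hκ m
  obtain ⟨c', hc', h⟩ := Pool.Agent.Q84.NX.strings_of (Pool.Agent.Q84.NX.WinFine R (ε / 40)) (ε / 5 / 2) (by positivity)
    hbad κ hκ m
  refine ⟨c', hc', fun Z => ?_⟩
  obtain ⟨D, X₀, hX₀⟩ := h Z
  refine ⟨D, max X₀ 16, fun X hX => ?_⟩
  obtain ⟨S, hS1, hS2, hS3⟩ := hX₀ X ((le_max_left _ _).trans hX)
  refine ⟨S, hS1, hS2, fun f hf => (hS3 f hf).trans ?_⟩
  rw [Nat.cast_le]
  apply card_le_card
  intro n hn
  rw [mem_filter] at hn ⊢
  obtain ⟨hn1, hn2, hn3, hn4⟩ := hn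
  refine ⟨hn1, hn2, hn3, fun p hp hpp => ⟨?_, (hn4 p hp hpp).2⟩⟩
  have hgood := (hn4 p hp hpp).1
  have hp16 : (16 : ℝ) ≤ p := by
    have h1 : (n : ℝ) ≤ p := by exact_mod_cast (mem_Icc.1 hp).1
    have h2 := (le_max_right X₀ 16).trans hX
    linarith
  have hp0 : (0 : ℝ) < p := by linarith
  have hp1 : (1 : ℝ) ≤ p := by linarith
  have hpc : (p : ℝ) ^ (ε / 40) ≤ p / 2 := by
    have h1 : (p : ℝ) ^ (ε / 40) ≤ (p : ℝ) ^ (1 / 2 : ℝ) := Real.rpow_le_rpow_of_exponent_le hp1 (by linarith)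
    rw [← Real.sqrt_eq_rpow] at h1
    refine h1.trans ?_
    rw [Real.sqrt_le_left (by positivity)]
    nlinarith
  intro k l hk hkp hkl
  have hl0 : 1 ≤ l := by
    have h2 := (abs_le.1 hkl).1
    have h3 : (p : ℝ) ≤ k * p := le_mul_of_one_le_left hp0.le (by exact_mod_cast hk)
    have h4 : (1 : ℝ) ≤ l := by linarith
    exact_mod_cast h4
  have h5 := hgood k l hk hkp hkl
  rw [hR] at h5
  have h6 : Pool.Agent.Results.MP_7aad9f_nt.MultiplesThreeHalves.Regular ε l := by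
    by_contra h7
    exact h5 ⟨hl0, h7⟩
  obtain ⟨h7, a, b, c, ⟨ha, hb, hab, hco⟩, h8, h9⟩ := h6
  constructor
  · intro a b ha hb hco hdvd
    exact h7 a b (a + b) ⟨ha, hb, rfl, hco⟩ hdvd
  · refine ⟨a, b, ha, hb, hco, ?_, ?_⟩
    · rw [hab]
      exact h8
    · rw [hab]
      exact h9

end Pool.Agent.Results.MP_4ab349_nt.StringsOfPrimes
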