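import Pool.Agent.Q138.PS.UB
import Pool.Agent.H374R2.Z.Glue2

/-!
# abc-triples divisible by `⌊α P(n)⌋`

Let `q ≥ 2`. Outside a set of real numbers of Hausdorff dimension at most `q / (q + 1 / (q 2 ^ (q - 1)))` (that is
`8 / 9` for `q = 2`) every `α > 0` has the following property: for each `ε > 0` there are `δ, η > 0` such that for large `N`,
for ALL integral polynomials `P` of degree `q` with positive leading coefficient and coefficients of size at most `N ^ η`,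
and for all but at most `ε N` of the `n ≤ N`: every abc-triple `(a, b, c)` (of any height) with `B ∣ a b c`,
`B = ⌊α P(n)⌋`, has `rad(abc) > B ^ (1 + δ)`.
-/

set_option autoImplicit false

namespace Pool.Agent.Results.MP_4ab349_nt.DivisorsAlongRealMultiples

open Finset Filter Topology
open Pool.Agent.Q138.PS

/-- every abc-triple whose product `a b c` is divisible by `B` has a radical larger than `B ^ (1 + δ)` -/
def Strong (δ : ℝ) (B : ℕ) : Prop :=
  ∀ a b c : ℕ, 0 < a → 0 < b → a + b = c → Nat.gcd a b = 1 → B ∣ a * b * c →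
    (B : ℝ) ^ (1 + δ) < ((∏ p ∈ (a * b * c).primeFactors, p : ℕ) : ℝ)

open Classical in
/-- the number of the `1 ≤ n ≤ N` for which `B = ⌊α P(n)⌋` is positive and not `Strong δ` -/
noncomputable def exceptions (δ α : ℝ) (P : Polynomial ℤ) (N : ℕ) : ℕ :=
  ((Icc 1 N).filter fun n : ℕ => 0 < ⌊α * ((P.eval (n : ℤ) : ℤ) : ℝ)⌋₊ ∧
    ¬ Strong δ ⌊α * ((P.eval (n : ℤ) : ℤ) : ℝ)⌋₊).card

/-- the exceptional numbers -/
def bad (δ : ℝ) (B : ℕ) : Prop := 0 < B ∧ ¬ Strong δ B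

theorem seed (ε : ℝ) (hε : 0 < ε) : ∃ δ : ℝ, 0 < δ ∧ ∃ X₀ : ℕ, ∀ X : ℕ, X₀ ≤ X →
    cn (bad δ) X ≤ ε * X := by
  classical
  obtain ⟨δ, hδ, X₀, h⟩ := Pool.Agent.H374R2.Z.robust ε hε
  refine ⟨δ, hδ, X₀, fun X hX => ?_⟩
  refine le_trans ?_ (h X hX)
  unfold cn
  rw [← Set.ncard_coe_finset]
  have hfin : {n : ℕ | 0 < n ∧ n ≤ X}.Finite := (Set.finite_Iic X).subset fun n hn => hn.2
  refine Nat.cast_le.2 (Set.ncard_le_ncard ?_ (hfin.subset ?_))
  swap
  · rintro n ⟨g1, g2, -⟩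
    exact ⟨g1, g2⟩
  intro n hn
  rw [mem_coe, mem_filter, mem_Icc] at hn
  obtain ⟨⟨h3, h4⟩, h5, h6⟩ := hn
  unfold Strong at h6
  push Not at h6
  obtain ⟨a, b, c, ha, hb, rfl, hg, hd, hr⟩ := h6
  refine ⟨h5, h4, a, b, ha, hb, Nat.coprime_iff_gcd_eq_one.2 hg, hd, ?_⟩
  simpa [Pool.Agent.H374R2.Z.rad] using hr

/-- **Theorem.** Let `q ≥ 2`. There is a set `E` of Hausdorff dimension at most `q / (q + 1 / (q 2 ^ (q - 1)))` such that
for each `α > 0` outside `E` and each `ε > 0` there are `δ > 0` and `η > 0` with the following property: for all large `N` and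
ALL `P ∈ ℤ[X]` of degree `q` with positive leading coefficient and coefficients of size at most `N ^ η`, all but at most
`ε N` of the `n ≤ N` are such that for `B = ⌊α P(n)⌋` every abc-triple (of any height) with `B ∣ a b c` has
`rad(abc) > B ^ (1 + δ)`. -/
theorem result (q : ℕ) (hq : 2 ≤ q) :
    ∃ E : Set ℝ, dimH E ≤ ENNReal.ofReal (q / (q + 1 / ((q : ℝ) * 2 ^ (q - 1)))) ∧ ∀ α : ℝ, 0 < α → α ∉ E →
      ∀ ε : ℝ, 0 < ε → ∃ δ η : ℝ, 0 < δ ∧ 0 < η ∧ ∀ᶠ N : ℕ in atTop, ∀ P : Polynomial ℤ,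
        P.natDegree = q → 0 < P.leadingCoeff → (∀ j, |((P.coeff j : ℤ) : ℝ)| ≤ (N : ℝ) ^ η) →
        (exceptions δ α P N : ℝ) ≤ ε * N := by
  classical
  have hs := fun i : ℕ => seed (1 / (2 * ((i : ℝ) + 1))) (by positivity)
  choose D hD X₀ hX using hs
  obtain ⟨E, hE, h⟩ := dens_nat q hq (fun i => bad (D i)) (fun i : ℕ => 1 / (2 * ((i : ℝ) + 1)))
    (fun i δ hδ => by
      filter_upwards [eventually_ge_atTop (X₀ i)] with y hy
      refine (hX i y hy).trans ?_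
      have : (0 : ℝ) ≤ y := Nat.cast_nonneg y
      nlinarith)
  refine ⟨E, hE, fun α hα hαE ε hε => ?_⟩
  obtain ⟨i, hi⟩ := exists_nat_one_div_lt hε
  obtain ⟨η, hη, h1⟩ := h α hα hαE i
  refine ⟨D i, η, hD i, hη, ?_⟩
  filter_upwards [h1 (1 / (2 * ((i : ℝ) + 1))) (by positivity)] with N hN P hdeg hlead hco
  have h2 := hN P hdeg hlead hco
  have h3 : (exceptions (D i) α P N : ℝ) ≤ cnP (bad (D i)) α P N := by
    unfold exceptions cnP cn
    norm_cast
    refine card_le_card ?_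
    intro n hn
    rw [mem_filter] at hn ⊢
    exact hn
  refine h3.trans (h2.trans ?_)
  have h4 : (1 / (2 * ((i : ℝ) + 1)) + 1 / (2 * ((i : ℝ) + 1))) = 1 / ((i : ℝ) + 1) := by
    field_simp
    norm_num
  rw [h4]
  have : (0 : ℝ) ≤ N := Nat.cast_nonneg N
  gcongr

end Pool.Agent.Results.MP_4ab349_nt.DivisorsAlongRealMultiples
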