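import Mathlib
import Pool.Agent.Q103.SD.Monic

/-!
# `T(a, b, c) < 1` when `b` and `c` are composed of integers from a short interval

The bases are integers of the interval `[t, t + t ^ δ]`, or more generally numbers with small digits
(of either sign) in base `t` and first digit `1` or `-1`; `b` and `c` are products of powers of the
bases (with small coefficients), all exponents are allowed, and `a` is free.
-/

set_option autoImplicit false

namespace Pool.Agent.Results.MP_4ab349_nt.ShortIntervals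

open Polynomial Finset Filter

/-- The product of the distinct primes dividing `n`. -/
def rad (n : ℤ) : ℕ := ∏ p ∈ n.natAbs.primeFactors, p

/-- The set of the bases that occur in one of the two products. -/
def used {n : ℕ} (b c : Fin n → ℕ) : Finset (Fin n) :=
  Finset.univ.filter (fun i => b i ≠ 0 ∨ c i ≠ 0)

/-- The bases `F_i(t)`, `i < n`, are the values at `t` of nonconstant polynomials with coefficients
(digits) of absolute value at most `H` and first digit (leading coefficient) `1` or `-1`, of total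
degree at most `K`; the coefficients `β`, `γ` are nonzero of absolute value at most `H`. -/
structure Bases (K : ℕ) (H : ℝ) {n : ℕ} (F : Fin n → ℤ[X]) (β γ : ℤ) : Prop where
  pos : ∀ i, 0 < (F i).natDegree
  deg : ∑ i, (F i).natDegree ≤ K
  digits : ∀ i j, |((F i).coeff j : ℝ)| ≤ H
  first : ∀ i, (F i).leadingCoeff = 1 ∨ (F i).leadingCoeff = -1
  ne : β ≠ 0 ∧ γ ≠ 0
  coef : |(β : ℝ)| ≤ H ∧ |(γ : ℝ)| ≤ H

theorem log_pow_small (κ : ℕ) : ∃ Y : ℝ, 1 ≤ Y ∧ ∀ x : ℝ, Y ≤ x →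
    Real.log x ^ κ < Real.sqrt x := by
  have hr : (0 : ℝ) < 1 / (4 * ((κ : ℝ) + 1)) := by positivity
  have h1 := (isLittleO_log_rpow_atTop hr).bound (show (0 : ℝ) < 1 by norm_num)
  obtain ⟨Y, hY⟩ := eventually_atTop.mp h1
  refine ⟨max Y 2, (by norm_num : (1 : ℝ) ≤ 2).trans (le_max_right _ _), fun x hx => ?_⟩
  have hx2 : 2 ≤ x := (le_max_right _ _).trans hx
  have hx0 : 0 < x := by linarith
  have h2 := hY x ((le_max_left _ _).trans hx)
  rw [one_mul, Real.norm_eq_abs, Real.norm_eq_abs, abs_of_nonneg (Real.log_nonneg (by linarith)),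
    abs_of_nonneg (by positivity)] at h2
  calc Real.log x ^ κ ≤ (x ^ (1 / (4 * ((κ : ℝ) + 1)))) ^ κ :=
        pow_le_pow_left₀ (Real.log_nonneg (by linarith)) h2 κ
    _ = x ^ (κ / (4 * ((κ : ℝ) + 1))) := by
        rw [← Real.rpow_mul_natCast hx0.le]
        congr 1
        ring
    _ < x ^ (1 / 2 : ℝ) := by
        apply Real.rpow_lt_rpow_of_exponent_lt (by linarith)
        rw [div_lt_div_iff₀ (by positivity) (by norm_num)]
        have : (0 : ℝ) ≤ κ := Nat.cast_nonneg _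
        linarith
    _ = Real.sqrt x := (Real.sqrt_eq_rpow x).symm

theorem result (K : ℕ) (ε : ℝ) (hε : 0 < ε) : ∃ δ : ℝ, 0 < δ ∧ ∃ κ t₀ : ℕ, ∀ t : ℕ, t₀ ≤ t →
    ∀ (n : ℕ) (F : Fin n → ℤ[X]) (β γ : ℤ), Bases K ((t : ℝ) ^ δ) F β γ →
    ∀ d e : Fin n → ℕ, (used d e).Nonempty → ∀ a b c Q : ℤ, a ≠ 0 →
      b = β * ∏ i, (F i).eval (t : ℤ) ^ d i → c = γ * ∏ i, (F i).eval (t : ℤ) ^ e i →
      Q = ∏ i ∈ used d e, (F i).eval (t : ℤ) → a + b = c →
      |(b : ℝ)| * (t : ℝ) ^ (1 - ε) ≤ |(a : ℝ) * Q| * Real.exp (Real.log (Real.log (max |(b : ℝ)| |(c : ℝ)|)) ^ κ) ∧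
      |(c : ℝ)| * (t : ℝ) ^ (1 - ε) ≤ |(a : ℝ) * Q| * Real.exp (Real.log (Real.log (max |(b : ℝ)| |(c : ℝ)|)) ^ κ) ∧
      (0 < a → 0 < b → |(a : ℝ) * Q| ≤ (t : ℝ) ^ (1 - ε) * rad (a * Q) →
        (c : ℝ) ≤ rad (a * b * c) * Real.exp (Real.log (Real.log c) ^ κ) ∧
        (c : ℝ) ^ (1 - 1 / Real.sqrt (Real.log c)) < rad (a * b * c)) := by
  obtain ⟨δ, hδ, hδ', κ, t₁, ht₁, h⟩ := Pool.Agent.Q103.SD.monic K ε hε
  obtain ⟨Y, hY1, hY⟩ := log_pow_small κ
  refine ⟨δ, hδ, κ, max t₁ (2 * ⌈Real.exp Y⌉₊ + 1), ?_⟩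
  intro t ht n F β γ hS d e hU a b c Q ha hb hc hQ heq
  have htt₁ : t₁ ≤ t := (le_max_left _ _).trans ht
  have htR : (64 : ℝ) ≤ t := by exact_mod_cast ht₁.trans htt₁
  have ht0 : (0 : ℝ) < t := by linarith
  have hD : Pool.Agent.Q103.SD.DataM t K ((t : ℝ) ^ δ) F β γ :=
    ⟨hS.pos, hS.deg, hS.digits, hS.first, hS.ne.1, hS.ne.2, hS.coef.1, hS.coef.2⟩
  obtain ⟨M, hM⟩ : ∃ M : ℝ, M = max |(b : ℝ)| |(c : ℝ)| := ⟨_, rfl⟩
  obtain ⟨hMt, hmain⟩ := h t htt₁ n F β γ hD d e hU a ha (by rw [← hb, ← hc, ← heq]; ring) M (by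
    rw [← hb, ← hc, hM, max_comm])
  have hQ' : ∏ i ∈ Pool.Agent.Q103.SD.used2 d e, (F i).eval (t : ℤ) = Q := hQ.symm
  rw [hQ', ← abs_mul] at hmain
  rw [← hM]
  have htε : 0 ≤ (t : ℝ) ^ (1 - ε) := by positivity
  have hbM : |(b : ℝ)| ≤ M := by rw [hM]; exact le_max_left _ _
  have hcM : |(c : ℝ)| ≤ M := by rw [hM]; exact le_max_right _ _
  refine ⟨(mul_le_mul_of_nonneg_right hbM htε).trans hmain,
    (mul_le_mul_of_nonneg_right hcM htε).trans hmain, ?_⟩
  intro ha0 hb0 hexc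
  have hcb : b ≤ c := by linarith
  have hc0 : 0 < c := by linarith
  have hcR : (0 : ℝ) < c := by exact_mod_cast hc0
  have hbcR : (b : ℝ) ≤ c := by exact_mod_cast hcb
  have hb0R : (0 : ℝ) < b := by exact_mod_cast hb0
  have hMc : M = c := by
    rw [hM, abs_of_pos hb0R, abs_of_pos hcR]
    exact max_eq_right hbcR
  rw [hMc] at hmain hMt
  have habc : a * b * c ≠ 0 := mul_ne_zero (mul_ne_zero ha hb0.ne') hc0.ne'
  have hrad : rad (a * Q) ≤ rad (a * b * c) := by
    refine Pool.Agent.Q103.SD.rad_le habc fun l hl hluQ => ?_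
    have hll : Prime (l : ℤ) := Nat.prime_iff_prime_int.mp hl
    rcases hll.dvd_or_dvd hluQ with hlu | hlQ
    · exact (hlu.mul_right _).mul_right _
    · rw [hQ] at hlQ
      obtain ⟨i, hi, hli⟩ := (hll.dvd_finsetProd_iff _).mp hlQ
      have hd : ∀ e : Fin n → ℕ, e i ≠ 0 → (l : ℤ) ∣ ∏ i, (F i).eval (t : ℤ) ^ e i := fun e he =>
        (hli.trans (dvd_pow_self _ he)).trans
          (Finset.dvd_prod_of_mem (fun i => (F i).eval (t : ℤ) ^ e i) (Finset.mem_univ i))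
      rcases (Finset.mem_filter.mp hi).2 with h | h
      · rw [hb]
        exact (((hd d h).mul_left _).mul_left _).mul_right _
      · rw [hc]
        exact ((hd e h).mul_left _).mul_left _
  have hradR : (rad (a * Q) : ℝ) ≤ rad (a * b * c) := by exact_mod_cast hrad
  have hrad0 : (0 : ℝ) < rad (a * b * c) := by
    have : 0 < rad (a * b * c) := Nat.pos_of_ne_zero (Finset.prod_ne_zero_iff.mpr fun _ hp =>
      (Nat.prime_of_mem_primeFactors hp).ne_zero)
    exact_mod_cast this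
  have htp : 0 < (t : ℝ) ^ (1 - ε) := by positivity
  have hfirst : (c : ℝ) ≤ rad (a * b * c) * Real.exp (Real.log (Real.log c) ^ κ) := by
    have h1 : (c : ℝ) * (t : ℝ) ^ (1 - ε) ≤
        (rad (a * b * c) * Real.exp (Real.log (Real.log c) ^ κ)) * (t : ℝ) ^ (1 - ε) := by
      refine hmain.trans ?_
      calc |(a : ℝ) * Q| * Real.exp (Real.log (Real.log c) ^ κ)
          ≤ ((t : ℝ) ^ (1 - ε) * rad (a * b * c)) * Real.exp (Real.log (Real.log c) ^ κ) := by
            apply mul_le_mul_of_nonneg_right _ (Real.exp_pos _).le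
            exact hexc.trans (mul_le_mul_of_nonneg_left hradR htε)
        _ = _ := by ring
    exact le_of_mul_le_mul_right h1 htp
  refine ⟨hfirst, ?_⟩
  -- `log c` is large
  have hYc : Real.exp Y ≤ c := by
    have h1 : (2 * ⌈Real.exp Y⌉₊ + 1 : ℕ) ≤ t := (le_max_right _ _).trans ht
    have h2 : ((2 * ⌈Real.exp Y⌉₊ + 1 : ℕ) : ℝ) ≤ t := by exact_mod_cast h1
    push_cast at h2
    have h3 := Nat.le_ceil (Real.exp Y)
    linarith
  have hlc : Y ≤ Real.log c := (Real.le_log_iff_exp_le hcR).mpr hYc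
  obtain ⟨l, hl⟩ : ∃ l, l = Real.log c := ⟨_, rfl⟩
  rw [← hl] at hlc hfirst ⊢
  have hsq := hY l hlc
  have hl0 : 0 < l := by linarith
  have hs0 : 0 < Real.sqrt l := Real.sqrt_pos.mpr hl0
  have hce : (c : ℝ) = Real.exp l := by rw [hl, Real.exp_log hcR]
  have h1 : (c : ℝ) ^ (1 - 1 / Real.sqrt l) = Real.exp (l - Real.sqrt l) := by
    rw [Real.rpow_def_of_pos hcR, ← hl]
    congr 1
    have h2 : Real.sqrt l * Real.sqrt l = l := Real.mul_self_sqrt hl0.le
    field_simp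
    nlinarith
  rw [h1]
  have h2 : Real.exp (l - Real.sqrt l) * Real.exp (Real.log l ^ κ) < Real.exp l := by
    rw [← Real.exp_add]
    apply Real.exp_lt_exp.mpr
    linarith
  rw [hce] at hfirst
  have h3 : Real.exp (l - Real.sqrt l) * Real.exp (Real.log l ^ κ) <
      rad (a * b * c) * Real.exp (Real.log l ^ κ) := lt_of_lt_of_le h2 hfirst
  exact lt_of_mul_lt_mul_right h3 (Real.exp_pos _).le

end Pool.Agent.Results.MP_4ab349_nt.ShortIntervals
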