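import Mathlib
import Pool.Agent.H159.TB.Trip

/-!
# The size of `c / rad(abc)`: transfer to the triples in a thin and arbitrarily small set

For coprime nonzero integers `a + b = c` let `h = log m`, `q = log (m / rad(abc))` and
`T = q / √h`, where `m = max(|a|, |b|, |c|)`; for the `abc`-triples (`a, b > 0`) `m` is `c`.

Let `S` be a finite set of primes, `f` a Belyi map over `ℚ` (`f = t ^ k` for instance) and `δ > 0`.
There are constants `D` and `C` such that for each triple with `h > C` there is a triple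
`a' + b' = c'` with `a' / c' ∈ f(ℚ)` and `|a' / c'|_v < δ` for all `v` in `S ∪ {∞}` such that
`h ≤ h' + C`, `h' ≤ D h + C` and `q ≤ q' + C`. So every upper bound `q ≤ φ(h)` for the second kind
of triples gives `q ≤ φ(D h + C) + C` for all triples; the question whether `T` is bounded is a
question on the second kind of triples, and the upper limits differ at most by the factor `√D`.
There is a version for the triples which are compactly bounded at given places.
-/

set_option autoImplicit false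

open Polynomial

namespace Pool.Agent.Results.MP_4ab349_nt.TransferToThinTriples

/-- the radical: the product of the distinct primes dividing `m` -/
def R (m : ℕ) : ℕ := ∏ p ∈ m.primeFactors, p

/-- coprime nonzero integers `a + b = c` -/
def IsTriple (a b c : ℤ) : Prop := a ≠ 0 ∧ b ≠ 0 ∧ c ≠ 0 ∧ IsCoprime a b ∧ a + b = c

/-- `m = max(|a|, |b|, |c|)`, which is `c` for positive `a + b = c` -/
def m (a b c : ℤ) : ℤ := max |a| (max |b| |c|)

/-- `h = log m` -/
noncomputable def h (a b c : ℤ) : ℝ := Real.log (m a b c : ℝ)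

/-- `q = log (m / rad(abc))` -/
noncomputable def q (a b c : ℤ) : ℝ :=
  Real.log ((m a b c : ℝ) / (R (a * b * c).natAbs : ℝ))

/-- `T = log (m / rad(abc)) / √(log m)` -/
noncomputable def T (a b c : ℤ) : ℝ :=
  Real.log ((m a b c : ℝ) / (R (a * b * c).natAbs : ℝ)) / √(Real.log (m a b c : ℝ))

/-- The rational function `f = F / G` over `ℚ` has degree `d`, it maps `0`, `1` and `∞` to elements
of `{0, 1, ∞}`, and there are at most `d + 1` complex numbers which it maps to `0`, `1` or `∞`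
(with `∞` at most `d + 2` points). By the formula of Riemann and Hurwitz the last condition means
that `f` is unramified outside the points over `0, 1, ∞`. -/
structure IsBelyi (F G : ℚ[X]) (d : ℕ) : Prop where
  pos : 1 ≤ d
  coprime : IsCoprime F G
  degree : max F.natDegree G.natDegree = d
  zero : (F * G * (F - G)).eval 0 = 0
  one : (F * G * (F - G)).eval 1 = 0
  infinity : F.natDegree < d ∨ G.natDegree < d ∨ (F - G).natDegree < d
  unramified : ((F * G * (F - G)).rootSet ℂ).ncard ≤ d + 1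

variable {ι : Type} [Fintype ι] (P : ι → ℕ) [∀ i, Fact (P i).Prime]

/-- The triples with `a / c = f(t)` for a rational number `t`, which are closer than `δ` to `f(x)` at
the real place and to `f(y i)` at the prime `P i`, for all `i`. -/
def Near (F G : ℚ[X]) (x : ℝ) (y : ∀ i, ℚ_[P i]) (δ : ℝ) (a b c : ℤ) : Prop :=
  IsTriple a b c ∧ (∃ t : ℚ, G.eval t ≠ 0 ∧ (a : ℚ) / c = F.eval t / G.eval t) ∧
    |(((a : ℚ) / c : ℚ) : ℝ) - aeval x F / aeval x G| < δ ∧
    ∀ i, ‖(((a : ℚ) / c : ℚ) : ℚ_[P i]) - aeval (y i) F / aeval (y i) G‖ < δ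

/-- The coordinates of the point `(x, y)` at the places outside `E` are `0`; at the places in `E` the
value of `f` is different from `0, 1, ∞`. The places are the real one (`none`) and the primes `P i`
(`some i`). -/
structure IsPoint (E : Set (Option ι)) (F G : ℚ[X]) (x : ℝ) (y : ∀ i, ℚ_[P i]) : Prop where
  real_in : none ∈ E → aeval x G ≠ 0 ∧ aeval x F ≠ 0 ∧ aeval x F ≠ aeval x G
  real_out : none ∉ E → x = 0
  prime_in : ∀ i, some i ∈ E →
    aeval (y i) G ≠ 0 ∧ aeval (y i) F ≠ 0 ∧ aeval (y i) F ≠ aeval (y i) G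
  prime_out : ∀ i, some i ∉ E → y i = 0

/-- For each triple `a + b = c` in `A` with `h > C` there is a triple `a' + b' = c'` in `B` with
`h ≤ h' + C`, `h' ≤ D h + C` and `q ≤ q' + C`. -/
def Dominated (A B : ℤ → ℤ → ℤ → Prop) (D C : ℝ) : Prop :=
  ∀ a b c : ℤ, A a b c → C < h a b c → ∃ a' b' c' : ℤ, B a' b' c' ∧
    h a b c ≤ h a' b' c' + C ∧ h a' b' c' ≤ D * h a b c + C ∧ q a b c ≤ q a' b' c' + C

/-- Let `f = F / G` be as in `IsBelyi`, with `f(0) = 0`, and let the primes `P i` be distinct.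
(1) Let `E` be any set of places, `(x, y)` a point as in `IsPoint`, `δ > 0`, and let `K`, `J i` be
compact sets of real and `P i`-adic numbers different from `0` and `1`. There are `D` and `C` such
that all triples with `a / c` in `K`, `J i` for the places in `E` are dominated by triples with
`a' / c' ∈ f(ℚ)` closer than `δ` to `f(x, y)`.
(2) For every `δ > 0` there are `D ≥ 1` and `C` such that for `N` the set of the triples with
`a / c ∈ f(ℚ)` closer than `δ` to `0` at the real place and at all primes `P i`: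
(i) all triples are dominated by triples in `N`, with the constants `D` and `C`;
(ii) if `φ` is nondecreasing and `q ≤ φ(h)` for the triples in `N` with `h > X`, then
`q ≤ φ(D h + C) + C` for all triples with `h > X + C`, if `X ≥ 0`;
(iii) if `T ≤ M` for all triples in `N` with large `h`, then for every `ε > 0` `T ≤ √D M + ε` for all
triples with large `h`;
(iv) `T` is bounded if and only if it is bounded on `N`;
(v) there is `κ > 0` such that `T > κ / log (2 + h)` for triples in `N` with arbitrarily large `h`. -/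
theorem result (hP : Function.Injective P) {F G : ℚ[X]} {d : ℕ} (hf : IsBelyi F G d)
    (h0 : F.eval 0 = 0) :
    (∀ (E : Set (Option ι)) (x : ℝ) (y : ∀ i, ℚ_[P i]), IsPoint P E F G x y →
      ∀ δ : ℝ, 0 < δ → ∀ (K : Set ℝ) (J : ∀ i, Set ℚ_[P i]), IsCompact K → (0 : ℝ) ∉ K →
      (1 : ℝ) ∉ K → (∀ i, IsCompact (J i) ∧ (0 : ℚ_[P i]) ∉ J i ∧ (1 : ℚ_[P i]) ∉ J i) →
      ∃ D C : ℝ, 1 ≤ D ∧ 0 ≤ C ∧ Dominated (fun a b c => IsTriple a b c ∧
        (none ∈ E → (((a : ℚ) / c : ℚ) : ℝ) ∈ K) ∧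
        ∀ i, some i ∈ E → (((a : ℚ) / c : ℚ) : ℚ_[P i]) ∈ J i) (Near P F G x y δ) D C) ∧
    (∀ δ : ℝ, 0 < δ → ∃ D C : ℝ, 1 ≤ D ∧ 0 ≤ C ∧
      Dominated IsTriple (Near P F G 0 0 δ) D C ∧
      (∀ φ : ℝ → ℝ, Monotone φ → ∀ X : ℝ, 0 ≤ X →
        (∀ a b c : ℤ, Near P F G 0 0 δ a b c → X < h a b c → q a b c ≤ φ (h a b c)) →
        ∀ a b c : ℤ, IsTriple a b c → X + C < h a b c → q a b c ≤ φ (D * h a b c + C) + C) ∧
      (∀ M : ℝ, 0 ≤ M →
        (∃ X : ℝ, ∀ a b c : ℤ, Near P F G 0 0 δ a b c → X < h a b c → T a b c ≤ M) →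
        ∀ ε : ℝ, 0 < ε → ∃ X : ℝ, ∀ a b c : ℤ, IsTriple a b c → X < h a b c →
          T a b c ≤ √D * M + ε) ∧
      ((∃ M : ℝ, ∀ a b c : ℤ, IsTriple a b c → T a b c ≤ M) ↔
        ∃ M : ℝ, ∀ a b c : ℤ, Near P F G 0 0 δ a b c → T a b c ≤ M) ∧
      ∃ κ : ℝ, 0 < κ ∧ ∀ X : ℝ, ∃ a b c : ℤ, Near P F G 0 0 δ a b c ∧ X < h a b c ∧
        κ / Real.log (2 + h a b c) < T a b c) := by
  have hB : Q265.LC.Bel F G d :=
    Q265.LC.bel_of hf.pos hf.coprime hf.degree hf.zero hf.one hf.infinity hf.unramified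
  have hdomin : ∀ (T0 A : Set ℚ), H159.TB.Dom T0 A → ∃ D C : ℝ, 1 ≤ D ∧ 0 ≤ C ∧
      Dominated (fun a b c => IsTriple a b c ∧ (a : ℚ) / c ∈ A)
        (fun a b c => IsTriple a b c ∧ (a : ℚ) / c ∈ T0) D C := by
    intro T0 A hTA
    obtain ⟨D, C, hD, hC, H⟩ := H159.TB.dom_trip hTA
    refine ⟨D, C, hD, hC, fun a b c habc hC' => ?_⟩
    obtain ⟨a', b', c', g1, g2, g3, g4, g5⟩ := H a b c habc.1 habc.2 hC'
    exact ⟨a', b', c', ⟨g1, g2⟩, g3, g4, g5⟩
  have hnear : ∀ (x : ℝ) (y : ∀ i, ℚ_[P i]) (δ : ℝ) (a b c : ℤ),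
      (IsTriple a b c ∧ (a : ℚ) / c ∈ Q265.LC.Near P F G x y δ) → Near P F G x y δ a b c := by
    rintro x y δ a b c ⟨g1, ⟨g2, g3, g4⟩⟩
    exact ⟨g1, g2, g3, g4⟩
  have hpt0 : ∀ δ : ℝ, 0 < δ → ∀ I : Set ℚ → Prop, Q265.LC.IsTr I →
      I (Q265.LC.Near P F G 0 0 δ) → I Set.univ := by
    intro δ hδ I hI' h
    refine (Q265.LC.bdd_empty (P := P) hI').1 (Q265.LC.local_main hI' hP hB h0 (E := ∅) (x := 0)
      (y := 0) (fun h => h.elim) (fun _ => rfl) (fun i h => h.elim) (fun i _ => rfl) hδ h)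
  have hl2 : 0 < Real.log 2 := Real.log_pos one_lt_two
  have hpos : ∀ a b c : ℤ, IsTriple a b c → Real.log 2 ≤ h a b c := fun a b c habc =>
    H159.TB.lh_pos habc
  have hqle : ∀ a b c : ℤ, IsTriple a b c → q a b c ≤ h a b c := by
    intro a b c habc
    have e : q a b c = h a b c - Real.log (Q241.AC.R (a * b * c).natAbs : ℝ) :=
      H159.TB.lq_eq habc
    have := Real.log_nonneg (Q265.LC.R_natAbs (a * b * c))
    linarith
  have hTq : ∀ a b c : ℤ, T a b c = q a b c / √(h a b c) := fun a b c => rfl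
  refine ⟨fun E x y hpt δ hδ K J hK hK0 hK1 hJ => ?_, fun δ hδ => ?_⟩
  · have h1 := Q265.LC.local_main (H159.TB.isTr_dom (Q265.LC.Near P F G x y δ)) hP hB h0
      hpt.real_in hpt.real_out hpt.prime_in hpt.prime_out hδ (H159.TB.dom_self _) K J hK hK0 hK1 hJ
    obtain ⟨D, C, hD, hC, H⟩ := hdomin _ _ h1
    refine ⟨D, C, hD, hC, fun a b c habc hC' => ?_⟩
    obtain ⟨a', b', c', g1, g3, g4, g5⟩ := H a b c ⟨habc.1, habc.2⟩ hC'
    exact ⟨a', b', c', hnear _ _ _ _ _ _ g1, g3, g4, g5⟩
  · have h1 := hpt0 δ hδ _ (H159.TB.isTr_dom (Q265.LC.Near P F G 0 0 δ)) (H159.TB.dom_self _)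
    obtain ⟨D, C, hD, hC, H'⟩ := hdomin _ _ h1
    have H : Dominated IsTriple (Near P F G 0 0 δ) D C := by
      intro a b c habc hC'
      obtain ⟨a', b', c', g1, g3, g4, g5⟩ := H' a b c ⟨habc, Set.mem_univ _⟩ hC'
      exact ⟨a', b', c', hnear _ _ _ _ _ _ g1, g3, g4, g5⟩
    have hphi : ∀ φ : ℝ → ℝ, Monotone φ → ∀ X : ℝ, 0 ≤ X →
        (∀ a b c : ℤ, Near P F G 0 0 δ a b c → X < h a b c → q a b c ≤ φ (h a b c)) →
        ∀ a b c : ℤ, IsTriple a b c → X + C < h a b c →
          q a b c ≤ φ (D * h a b c + C) + C := by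
      intro φ hφ X hX hN a b c habc hXC
      obtain ⟨a', b', c', g1, g3, g4, g5⟩ := H a b c habc (by linarith)
      have g6 := hN a' b' c' g1 (by linarith)
      have g7 := hφ g4
      linarith
    have hT : ∀ M : ℝ, 0 ≤ M →
        (∃ X : ℝ, ∀ a b c : ℤ, Near P F G 0 0 δ a b c → X < h a b c → T a b c ≤ M) →
        ∀ ε : ℝ, 0 < ε → ∃ X : ℝ, ∀ a b c : ℤ, IsTriple a b c → X < h a b c →
          T a b c ≤ √D * M + ε := by
      rintro M hM ⟨X, hX⟩ ε hε
      have hN : ∀ a b c : ℤ, Near P F G 0 0 δ a b c → max X 0 < h a b c →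
          q a b c ≤ M * √(h a b c) := by
        intro a b c habc hXh
        have g1 := hX a b c habc (lt_of_le_of_lt (le_max_left _ _) hXh)
        have g2 : 0 < √(h a b c) := Real.sqrt_pos.2 (lt_of_le_of_lt (le_max_right _ _) hXh)
        rw [hTq, div_le_iff₀ g2] at g1
        exact g1
      have hmono : Monotone (fun t : ℝ => M * √t) := fun s t hst =>
        mul_le_mul_of_nonneg_left (Real.sqrt_le_sqrt hst) hM
      refine ⟨max (max X 0 + C) (((M * √C + C) / ε) ^ 2), fun a b c habc hXh => ?_⟩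
      have g1 := hphi _ hmono (max X 0) (le_max_right _ _) hN a b c habc
        (lt_of_le_of_lt (le_max_left _ _) hXh)
      have g2 : ((M * √C + C) / ε) ^ 2 < h a b c := lt_of_le_of_lt (le_max_right _ _) hXh
      have hh := hpos a b c habc
      have hh0 : 0 < h a b c := by linarith
      have g3 : 0 < √(h a b c) := Real.sqrt_pos.2 hh0
      have g4 : (M * √C + C) / ε ≤ √(h a b c) := Real.le_sqrt_of_sq_le g2.le
      have g5 : √(D * h a b c + C) ≤ √D * √(h a b c) + √C := by
        rw [← Real.sqrt_mul (by linarith)]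
        have hdx : 0 ≤ D * h a b c := by positivity
        rw [Real.sqrt_le_iff]
        refine ⟨by positivity, ?_⟩
        have e1 := Real.sq_sqrt hdx
        have e2 := Real.sq_sqrt hC
        have e3 : 0 ≤ √(D * h a b c) * √C := by positivity
        nlinarith
      have g6 : M * √C + C ≤ ε * √(h a b c) := by
        rw [div_le_iff₀ hε] at g4
        linarith
      rw [hTq, div_le_iff₀ g3]
      have g7 : M * √(D * h a b c + C) ≤ M * (√D * √(h a b c) + √C) :=
        mul_le_mul_of_nonneg_left g5 hM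
      calc q a b c ≤ M * √(D * h a b c + C) + C := g1
        _ ≤ M * (√D * √(h a b c) + √C) + C := by linarith
        _ = √D * M * √(h a b c) + (M * √C + C) := by ring
        _ ≤ √D * M * √(h a b c) + ε * √(h a b c) := by linarith
        _ = (√D * M + ε) * √(h a b c) := by ring
    refine ⟨D, C, hD, hC, H, hphi, hT, ⟨?_, ?_⟩, ?_⟩
    · rintro ⟨M, hM⟩
      exact ⟨M, fun a b c habc => hM a b c habc.1⟩
    · rintro ⟨M, hM⟩
      obtain ⟨X, hX⟩ := hT (max M 0) (le_max_right _ _)
        ⟨0, fun a b c habc _ => (hM a b c habc).trans (le_max_left _ _)⟩ 1 one_pos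
      refine ⟨max (√D * max M 0 + 1) (√X), fun a b c habc => ?_⟩
      rcases lt_or_ge X (h a b c) with g | g
      · exact (hX a b c habc g).trans (le_max_left _ _)
      · refine le_trans ?_ (le_max_right _ _)
        have hh := hpos a b c habc
        have g3 : 0 < √(h a b c) := Real.sqrt_pos.2 (by linarith)
        rw [hTq, div_le_iff₀ g3]
        have g4 : √(h a b c) * √(h a b c) = h a b c := Real.mul_self_sqrt (by linarith)
        have g5 : √(h a b c) ≤ √X := Real.sqrt_le_sqrt g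
        have g6 := hqle a b c habc
        nlinarith
    · have hn : ¬ Q265.LC.Low (Q265.LC.Near P F G 0 0 δ) := fun h =>
        Q265.LC.not_low (hpt0 δ hδ _ Q265.LC.isTr_low h)
      unfold Q265.LC.Low at hn
      push Not at hn
      obtain ⟨κ, hκ, hC⟩ := hn
      refine ⟨κ / 2, by positivity, fun X => ?_⟩
      obtain ⟨s, hs, s0, s1, hlow⟩ := hC (max X 1)
      obtain ⟨g1, g2⟩ := H159.TB.from_rat s0 s1
      obtain ⟨s', hs', -, -, l1, l2, l3, l4⟩ := H159.TB.to_rat g1
      rw [g2] at hs'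
      subst hs'
      have hRd : 0 ≤ Real.log (Q265.LC.Rd s') := Real.log_nonneg (Q265.LC.one_le_Rd s')
      have hH0 : 0 ≤ Real.log (Q265.LC.H s') := Real.log_nonneg (Q265.LC.one_le_H s')
      have hpsi : 0 ≤ κ * Q265.LC.psi (Real.log (Q265.LC.H s')) :=
        mul_nonneg hκ.le (Q265.LC.psi_nonneg hH0)
      have hX1 := le_max_left X 1
      have hX2 := le_max_right X 1
      have e1 : H159.TB.hh s' = Real.log (Q265.LC.H s') := rfl
      have e2 : H159.TB.df s' = Real.log (Q265.LC.H s') - Real.log (Q265.LC.Rd s') := rfl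
      obtain ⟨η, hη⟩ : ∃ η, η = h s'.num (s'.den - s'.num) s'.den := ⟨_, rfl⟩
      obtain ⟨θ, hθ⟩ : ∃ θ, θ = Real.log (Q265.LC.H s') := ⟨_, rfl⟩
      have l1' : θ ≤ η := by rw [hθ, hη, ← e1]; exact l1
      have l2' : η ≤ θ + Real.log 2 := by rw [hθ, hη, ← e1]; exact l2
      have l3' : θ - Real.log (Q265.LC.Rd s') ≤ q s'.num (s'.den - s'.num) s'.den := by
        rw [hθ, ← e2]; exact l3
      rw [← hθ] at hlow hpsi hH0
      have hθ1 : 1 ≤ θ := by linarith
      have hl21 : Real.log 2 ≤ 1 := by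
        have := Real.log_two_lt_d9
        linarith
      refine ⟨s'.num, s'.den - s'.num, s'.den,
        hnear 0 0 δ _ _ _ ⟨g1, by rw [g2]; exact hs⟩, ?_, ?_⟩
      · rw [← hη]
        linarith
      · have hη0 : 0 < √η := Real.sqrt_pos.2 (by linarith)
        rw [hTq, ← hη, lt_div_iff₀ hη0]
        have k1 : √η ≤ 2 * √θ := by
          have : η ≤ 4 * θ := by linarith
          calc √η ≤ √(4 * θ) := Real.sqrt_le_sqrt this
            _ = 2 * √θ := by
              rw [Real.sqrt_mul (by norm_num)]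
              congr 1
              rw [show (4 : ℝ) = 2 ^ 2 by norm_num, Real.sqrt_sq (by norm_num)]
        have k2 : 0 < Real.log (θ + 2) := Real.log_pos (by linarith)
        have k3 : Real.log (θ + 2) ≤ Real.log (2 + η) := Real.log_le_log (by linarith) (by linarith)
        have k4 : κ / 2 / Real.log (2 + η) * √η ≤ κ * Q265.LC.psi θ := by
          unfold Q265.LC.psi
          calc κ / 2 / Real.log (2 + η) * √η ≤ κ / 2 / Real.log (θ + 2) * (2 * √θ) := by
                gcongr
            _ = κ * (√θ / Real.log (θ + 2)) := by field_simp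
        linarith

end Pool.Agent.Results.MP_4ab349_nt.TransferToThinTriples
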